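import Pool.Agent.Lib.Hinf.Final

/-!
Uniform boundedness of families of bounded operators on `H^∞` tested on inner functions.
-/

set_option autoImplicit false

namespace Pool.Agent.Results.MP_496271_an.InnerUniform

open Filter Topology MeasureTheory Pool.Agent.Hinf

universe u v

/-- `H^∞`: the bounded continuous functions on the open unit disc which are analytic, with the
supremum norm. -/
abbrev Hinfty : Type := Pool.Agent.Hinf.HInf

/-- The value of `f` at `z`, for `z` in the open unit disc (and `0` outside of it). -/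
noncomputable def val (f : Hinfty) (z : ℂ) : ℂ := Pool.Agent.Hinf.ev f z

/-- Inner functions: for almost every `θ` the radial limit of `φ` at `e^{iθ}` exists and has
modulus one. -/
def IsInner (φ : Hinfty) : Prop :=
  ∀ᵐ θ : ℝ, ∃ w : ℂ, ‖w‖ = 1 ∧
    Tendsto (fun r : ℝ => val φ ((r : ℂ) * Complex.exp ((θ : ℂ) * Complex.I))) (𝓝[<] (1 : ℝ)) (𝓝 w)

theorem isInner_of_inner {φ : Hinfty} (hφ : Inner φ) : IsInner φ := by
  have h1 : ∀ᵐ ζ ∂sg, ∃ w : ℂ, ‖w‖ = 1 ∧
      Tendsto (fun r : ℝ => ev φ ((r : ℂ) * ζ)) (𝓝[<] (1 : ℝ)) (𝓝 w) := by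
    filter_upwards [hφ, tendsto_bv φ] with ζ h2 h3
    exact ⟨_, h2, h3⟩
  have h4 := ae_of_ae_sg _ h1
  filter_upwards [h4] with θ hθ
  rw [cm_eq_exp] at hθ
  exact hθ

/-- **Uniform boundedness tested on inner functions**, for arbitrary families of bounded operators
from `H^∞` into normed spaces. -/
theorem result {ι : Type u} {Y : ι → Type v} [∀ i, NormedAddCommGroup (Y i)]
    [∀ i, NormedSpace ℂ (Y i)] (T : ∀ i, Hinfty →L[ℂ] Y i)
    (hT : ∀ φ : Hinfty, IsInner φ → ∃ C : ℝ, ∀ i, ‖T i φ‖ ≤ C) :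
    ∃ C : ℝ, ∀ i, ‖T i‖ ≤ C := by
  by_contra hcon
  push Not at hcon
  choose i hi using fun n : ℕ => hcon n
  have hx : ∀ n : ℕ, ∃ x : Hinfty, ‖x‖ < 1 ∧ (n : ℝ) < ‖T (i n) x‖ := fun n =>
    (T (i n)).exists_lt_apply_of_lt_opNorm (hi n)
  choose x hx1 hx2 using hx
  choose g hg1 hg2 using fun n : ℕ => exists_dual_vector'' ℂ (T (i n) (x n))
  obtain ⟨C, hC⟩ := uniform_bounded_of_inner (fun n => (g n).comp (T (i n))) (by
    intro φ hφ
    obtain ⟨C, hC⟩ := hT φ (isInner_of_inner hφ)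
    refine ⟨C, fun n => ?_⟩
    calc ‖(g n).comp (T (i n)) φ‖ ≤ ‖g n‖ * ‖T (i n) φ‖ := (g n).le_opNorm _
      _ ≤ 1 * ‖T (i n) φ‖ := by
        gcongr
        exact hg1 n
      _ ≤ C := by rw [one_mul]; exact hC _)
  obtain ⟨n, hn⟩ := exists_nat_gt C
  have h1 : (n : ℝ) ≤ ‖(g n).comp (T (i n)) (x n)‖ := by
    change (n : ℝ) ≤ ‖g n (T (i n) (x n))‖
    rw [hg2 n]
    simpa using (hx2 n).le
  have h2 : ‖(g n).comp (T (i n)) (x n)‖ ≤ C := by
    calc _ ≤ ‖(g n).comp (T (i n))‖ * ‖x n‖ := ContinuousLinearMap.le_opNorm _ _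
      _ ≤ ‖(g n).comp (T (i n))‖ * 1 := by
        gcongr
        exact (hx1 n).le
      _ ≤ C := by rw [mul_one]; exact hC n
  linarith

end Pool.Agent.Results.MP_496271_an.InnerUniform
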